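import Pool.Agent.H23.GZ.Targets5

/-!
# Board gz_modules, row THE: derivative of the local transform
-/

set_option autoImplicit false

namespace Pool.Agent.H89.GZ

open MeasureTheory Pool.Agent.H34.GM Pool.Agent.H34.GZ Filter Topology

theorem the_sz_nonneg {m : ℕ} (z : Mat m) : 0 ≤ sz z := norm_nonneg _

theorem the_sz_smul {m : ℕ} (c : ℝ) (hc : 0 < c) (z : Mat m) : sz (c • z) = c * sz z := by
  unfold sz
  have h1 : ((fun i j => (c • z) i j) : V m) = c • ((fun i j => z i j) : V m) := rfl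
  rw [h1, norm_smul, Real.norm_of_nonneg hc.le]

/-- the powers of the size on the shell -/
theorem the_pow {m : ℕ} (N : ℕ) (k c : ℝ) (hk : 0 < k) (hk1 : k ≤ 1) (hkc : k ≤ c) (z : Mat m) :
    (1 + sz (c • z)) ^ (-(N : ℝ)) ≤ k ^ (-(N : ℝ)) * (1 + sz z) ^ (-(N : ℝ)) := by
  have hs := the_sz_nonneg z
  have hc : 0 < c := lt_of_lt_of_le hk hkc
  rw [the_sz_smul c hc, ← Real.mul_rpow hk.le (by linarith)]
  refine Real.rpow_le_rpow_of_nonpos (by positivity) ?_ (by simp)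
  nlinarith

theorem the_deriv {m : ℕ} (f f1 : Mat m → ℂ)
    (hd : ∀ z, HasDerivAt (fun c : ℝ => f (c • z)) (f1 z) 1) (a : ℝ) (z : Mat m) (r : ℝ)
    (hr : 0 < r) :
    HasDerivAt (fun r : ℝ => f ((r⁻¹ * a) • z)) (-((r : ℂ)⁻¹) * f1 ((r⁻¹ * a) • z)) r := by
  have h1 : HasDerivAt (fun t : ℝ => r * t⁻¹) (r * (-(r ^ 2)⁻¹)) r :=
    (hasDerivAt_inv hr.ne').const_mul r
  have h2 : r * (-(r ^ 2)⁻¹) = -r⁻¹ := by
    field_simp
  rw [h2] at h1
  have h3 : r * r⁻¹ = 1 := mul_inv_cancel₀ hr.ne'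
  have h4 : HasDerivAt (fun c : ℝ => f (c • ((r⁻¹ * a) • z))) (f1 ((r⁻¹ * a) • z))
      (r * r⁻¹) := by
    rw [h3]
    exact hd _
  have h5 := HasDerivAt.scomp r h4 h1
  have h6 : ((fun c : ℝ => f (c • ((r⁻¹ * a) • z))) ∘ fun t : ℝ => r * t⁻¹) =
      fun r : ℝ => f ((r⁻¹ * a) • z) := by
    funext t
    simp only [Function.comp]
    rw [smul_smul]
    congr 2
    field_simp
  rw [h6] at h5
  have h7 : (-r⁻¹ : ℝ) • f1 ((r⁻¹ * a) • z) = -((r : ℂ)⁻¹) * f1 ((r⁻¹ * a) • z) := by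
    rw [Complex.real_smul]
    push_cast
    ring
  rw [h7] at h5
  exact h5

theorem the_meas {m : ℕ} (haN : Measurable (fun z : V m => aN (mt z)))
    (hPhi : ∀ Φ : Mat m → ℂ, Continuous Φ → Measurable (fun z : V m => Φ (mt z)))
    (f : Mat m → ℂ) (hf : Continuous f) (r : ℝ) :
    Measurable fun z : V m => f ((r⁻¹ * (aN (mt z))⁻¹) • mt z) := by
  have h1 : Measurable fun z : V m => (r⁻¹ * (aN (mt z))⁻¹) • z :=
    (haN.inv.const_mul r⁻¹).smul measurable_id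
  have h2 := (hPhi f hf).comp h1
  exact h2

theorem the_pwm {m : ℕ} (mu : Fin m → ℂ)
    (hpw : ContinuousOn (fun z : Mat m => pw mu z) {z | z.det ≠ 0})
    (hSh : MeasurableSet (Shell m)) (hsub : ∀ z ∈ Shell m, (mt z).det ≠ 0) :
    AEStronglyMeasurable (fun z : V m => pw mu (mt z))
      ((Pool.Agent.H34.GM.hm m).restrict (Shell m)) := by
  have h1 : ContinuousOn (fun z : V m => pw mu (mt z)) (Shell m) := by
    have h2 : Continuous fun z : V m => mt z := continuous_id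
    exact hpw.comp h2.continuousOn hsub
  exact h1.aestronglyMeasurable hSh

theorem the_det_ne {m : ℕ} (hm : 1 ≤ m) {z : Mat m} (hz : 1 ≤ aN z) : z.det ≠ 0 := by
  intro h
  have h0 : (1 : ℝ) / m ≠ 0 := by
    have : (1 : ℝ) ≤ m := by exact_mod_cast hm
    positivity
  unfold aN at hz
  rw [h, abs_zero, Real.zero_rpow h0] at hz
  linarith

theorem pf_THE (hPWC : T_PWC) (hSHP : T_SHP) (hMSR : T_MSR) : T_THE := by
  intro m hm mu hmu f f1 hf hf1 hRf hRf1 hd r hr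
  obtain ⟨-, -, haN, -, -, hSh, -, hPhi⟩ := hMSR.1 m
  obtain ⟨N, hN⟩ := hSHP m hm mu hmu
  obtain ⟨M, hM⟩ := hRf N
  obtain ⟨M1, hM1⟩ := hRf1 N
  have hsub : ∀ z ∈ Shell m, (mt z).det ≠ 0 := fun z hz => the_det_ne hm hz.1
  have hpwm := the_pwm mu (hPWC m hm mu).1 hSh hsub
  -- the lower bound of the scalars
  have he : 0 < Real.exp 1 := Real.exp_pos 1
  obtain ⟨k, hk⟩ : ∃ k : ℝ, k = min 1 ((2 * r)⁻¹ * (Real.exp 1)⁻¹) := ⟨_, rfl⟩
  have hk0 : 0 < k := by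
    rw [hk]
    exact lt_min one_pos (by positivity)
  have hk1 : k ≤ 1 := by
    rw [hk]
    exact min_le_left _ _
  have hkc : ∀ z ∈ Shell m, ∀ x ∈ Set.Ioo (r / 2) (2 * r), k ≤ x⁻¹ * (aN (mt z))⁻¹ := by
    intro z hz x hx
    have hx0 : 0 < x := lt_trans (by linarith) hx.1
    have ha0 : 0 < aN (mt z) := lt_of_lt_of_le one_pos hz.1
    have hk2 : k ≤ (2 * r)⁻¹ * (Real.exp 1)⁻¹ := by
      rw [hk]
      exact min_le_right _ _
    refine le_trans hk2 ?_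
    have h1 : (2 * r)⁻¹ ≤ x⁻¹ := inv_anti₀ hx0 hx.2.le
    have h2 : (Real.exp 1)⁻¹ ≤ (aN (mt z))⁻¹ := inv_anti₀ ha0 hz.2.le
    exact mul_le_mul h1 h2 (by positivity) (by positivity)
  have hbd : ∀ (g : Mat m → ℂ) (L : ℝ), (∀ z, ‖g z‖ ≤ L * (1 + sz z) ^ (-(N : ℝ))) →
      ∀ z ∈ Shell m, ∀ x ∈ Set.Ioo (r / 2) (2 * r),
      ‖g ((x⁻¹ * (aN (mt z))⁻¹) • mt z) * pw mu (mt z)‖ ≤
        |L| * k ^ (-(N : ℝ)) * ((1 + sz (mt z)) ^ (-(N : ℝ)) * ‖pw mu (mt z)‖) := by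
    intro g L hg z hz x hx
    have h1 := hg ((x⁻¹ * (aN (mt z))⁻¹) • mt z)
    have h2 := the_pow N k _ hk0 hk1 (hkc z hz x hx) (mt z)
    have h3 : (0 : ℝ) ≤ (1 + sz ((x⁻¹ * (aN (mt z))⁻¹) • mt z)) ^ (-(N : ℝ)) := by
      have := the_sz_nonneg ((x⁻¹ * (aN (mt z))⁻¹) • mt z)
      positivity
    rw [norm_mul]
    have h4 : ‖g ((x⁻¹ * (aN (mt z))⁻¹) • mt z)‖ ≤
        |L| * (k ^ (-(N : ℝ)) * (1 + sz (mt z)) ^ (-(N : ℝ))) :=
      h1.trans ((mul_le_mul_of_nonneg_right (le_abs_self L) h3).trans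
        (mul_le_mul_of_nonneg_left h2 (abs_nonneg L)))
    calc _ ≤ |L| * (k ^ (-(N : ℝ)) * (1 + sz (mt z)) ^ (-(N : ℝ))) * ‖pw mu (mt z)‖ :=
          mul_le_mul_of_nonneg_right h4 (norm_nonneg _)
      _ = _ := by ring
  have hrs : r ∈ Set.Ioo (r / 2) (2 * r) := ⟨by linarith, by linarith⟩
  have hmF : ∀ g : Mat m → ℂ, Continuous g → ∀ x : ℝ,
      AEStronglyMeasurable (fun z : V m => g ((x⁻¹ * (aN (mt z))⁻¹) • mt z) * pw mu (mt z))
        ((Pool.Agent.H34.GM.hm m).restrict (Shell m)) := fun g hg x =>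
    (the_meas haN hPhi g hg x).aestronglyMeasurable.mul hpwm
  have hint : Integrable (fun z : V m => f ((r⁻¹ * (aN (mt z))⁻¹) • mt z) * pw mu (mt z))
      ((Pool.Agent.H34.GM.hm m).restrict (Shell m)) := by
    refine Integrable.mono' (hN.const_mul (|M| * k ^ (-(N : ℝ)))) (hmF f hf r) ?_
    rw [ae_restrict_iff' hSh]
    exact Eventually.of_forall fun z hz => hbd f M hM z hz r hrs
  have key := hasDerivAt_integral_of_dominated_loc_of_deriv_le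
    (μ := (Pool.Agent.H34.GM.hm m).restrict (Shell m))
    (F := fun (x : ℝ) (z : V m) => f ((x⁻¹ * (aN (mt z))⁻¹) • mt z) * pw mu (mt z))
    (F' := fun (x : ℝ) (z : V m) =>
      -((x : ℂ)⁻¹) * (f1 ((x⁻¹ * (aN (mt z))⁻¹) • mt z) * pw mu (mt z)))
    (bound := fun z : V m => (2 / r) *
      (|M1| * k ^ (-(N : ℝ)) * ((1 + sz (mt z)) ^ (-(N : ℝ)) * ‖pw mu (mt z)‖)))
    (x₀ := r) (s := Set.Ioo (r / 2) (2 * r))
    (Ioo_mem_nhds hrs.1 hrs.2) (Eventually.of_forall fun x => hmF f hf x) hint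
    ((hmF f1 hf1 r).const_mul _) ?_ ((hN.const_mul _).const_mul _) ?_
  · have h1 := key.2
    rw [integral_const_mul] at h1
    have h2 : -((r : ℂ)⁻¹ * th1 f1 mu r) = -((r : ℂ)⁻¹) *
        ∫ z in Shell m, f1 ((r⁻¹ * (aN (mt z))⁻¹) • mt z) * pw mu (mt z)
          ∂(Pool.Agent.H34.GM.hm m) := by
      unfold th1
      ring
    rw [h2]
    exact h1
  · rw [ae_restrict_iff' hSh]
    refine Eventually.of_forall fun z hz x hx => ?_
    have hx0 : 0 < x := lt_trans (by linarith) hx.1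
    rw [norm_mul]
    have h1 : ‖-((x : ℂ)⁻¹)‖ ≤ 2 / r := by
      rw [norm_neg, norm_inv, Complex.norm_real, Real.norm_of_nonneg hx0.le]
      rw [inv_le_comm₀ hx0 (by positivity), inv_div]
      exact hx.1.le
    exact mul_le_mul h1 (hbd f1 M1 hM1 z hz x hx) (norm_nonneg _) (by positivity)
  · refine Eventually.of_forall fun z => ?_
    intro x hx
    have hx0 : 0 < x := lt_trans (by linarith) hx.1
    have h1 := (the_deriv f f1 hd (aN (mt z))⁻¹ (mt z) x hx0).mul_const (pw mu (mt z))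
    have h2 : -((x : ℂ)⁻¹) * f1 ((x⁻¹ * (aN (mt z))⁻¹) • mt z) * pw mu (mt z) =
        -((x : ℂ)⁻¹) * (f1 ((x⁻¹ * (aN (mt z))⁻¹) • mt z) * pw mu (mt z)) := by ring
    rw [h2] at h1
    exact h1

end Pool.Agent.H89.GZ
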